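import Pool.Agent.N375.AV.D

/-! Values of compositions of functions dominated by the largest prime factor are rarely near a given number, uniformly
in this number, and hence rarely satisfy a linear relation (helper87). -/

set_option autoImplicit false

namespace Pool.Agent.V7H87.KT

open Finset
open Pool.Agent.N733.TG (Expanding)
open Pool.Agent.N375.AV (PD comp windows_unif)

lemma lower {G : ℕ → ℝ} {d : ℝ} (hG : Expanding G d) : ∃ B : ℝ, 1 ≤ B ∧ ∀ v : ℕ, -B ≤ G v := by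
  obtain ⟨a, ha, hstep⟩ := hG.step
  refine ⟨|G 0| + |G 1| + 1, by linarith [abs_nonneg (G 0), abs_nonneg (G 1)], fun v => ?_⟩
  rcases Nat.eq_zero_or_pos v with rfl | hv
  · linarith [neg_abs_le (G 0), abs_nonneg (G 1)]
  · have h1 : G 1 ≤ G v := by
      induction v, hv using Nat.le_induction with
      | base => exact le_rfl
      | succ n hn ih =>
        have := hstep n hn
        linarith
    linarith [neg_abs_le (G 1), abs_nonneg (G 0)]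

/-- the integers near `y` -/
def S (B C κ y : ℝ) : Set ℤ := {t | -B ≤ (t : ℝ) ∧ |(t : ℝ) - y| ≤ C * (1 + |(t : ℝ)|) ^ κ}

lemma count_S {B C κ : ℝ} (hB : 1 ≤ B) (hC : 0 ≤ C) (hκ : 0 ≤ κ) (hκ1 : κ ≤ 1) (y : ℝ) (X : ℝ) (hX : 1 ≤ X) :
    {t : ℤ | t ∈ S B C κ y ∧ (t : ℝ) ≤ X}.Finite ∧
    ({t : ℤ | t ∈ S B C κ y ∧ (t : ℝ) ≤ X}.ncard : ℝ) ≤ (2 * C * (2 + B) + 1) * X ^ κ := by
  obtain ⟨R, hR⟩ : ∃ R : ℝ, R = C * (2 + B) * X ^ κ := ⟨_, rfl⟩
  have hXκ : 1 ≤ X ^ κ := Real.one_le_rpow hX hκ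
  have hR0 : 0 ≤ R := by rw [hR]; positivity
  have hsub : {t : ℤ | t ∈ S B C κ y ∧ (t : ℝ) ≤ X} ⊆ ((Icc ⌈y - R⌉ ⌊y + R⌋ : Finset ℤ) : Set ℤ) := by
    rintro t ⟨⟨h1, h2⟩, h3⟩
    have h4 : 1 + |(t : ℝ)| ≤ (2 + B) * X := by
      have h5 : |(t : ℝ)| ≤ (1 + B) * X := by
        rw [abs_le]
        constructor
        · nlinarith
        · nlinarith
      nlinarith
    have h5 : (1 + |(t : ℝ)|) ^ κ ≤ (2 + B) * X ^ κ := by
      calc (1 + |(t : ℝ)|) ^ κ ≤ ((2 + B) * X) ^ κ := Real.rpow_le_rpow (by positivity) h4 hκ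
        _ = (2 + B) ^ κ * X ^ κ := Real.mul_rpow (by linarith) (by linarith)
        _ ≤ (2 + B) * X ^ κ := by
          apply mul_le_mul_of_nonneg_right _ (by linarith)
          calc (2 + B) ^ κ ≤ (2 + B) ^ (1 : ℝ) := Real.rpow_le_rpow_of_exponent_le (by linarith) hκ1
            _ = 2 + B := Real.rpow_one _
    have h6 : |(t : ℝ) - y| ≤ R := by
      rw [hR, mul_assoc]
      exact h2.trans (mul_le_mul_of_nonneg_left h5 hC)
    rw [abs_le] at h6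
    rw [mem_coe, mem_Icc]
    constructor
    · rw [Int.ceil_le]
      linarith [h6.1]
    · rw [Int.le_floor]
      linarith [h6.2]
  refine ⟨(finite_toSet _).subset hsub, ?_⟩
  have h1 := Set.ncard_le_ncard hsub (finite_toSet _)
  rw [Set.ncard_coe_finset, Int.card_Icc] at h1
  have h2 : (((⌊y + R⌋ + 1 - ⌈y - R⌉).toNat : ℕ) : ℝ) ≤ 2 * R + 1 := by
    rcases le_total 0 (⌊y + R⌋ + 1 - ⌈y - R⌉) with h | h
    · have h3 : (((⌊y + R⌋ + 1 - ⌈y - R⌉).toNat : ℕ) : ℝ) = ((⌊y + R⌋ + 1 - ⌈y - R⌉ : ℤ) : ℝ) := by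
        have h4 : (((⌊y + R⌋ + 1 - ⌈y - R⌉).toNat : ℕ) : ℤ) = ⌊y + R⌋ + 1 - ⌈y - R⌉ := Int.toNat_of_nonneg h
        exact_mod_cast congrArg (fun z : ℤ => (z : ℝ)) h4
      rw [h3]
      push_cast
      linarith [Int.floor_le (y + R), Int.le_ceil (y - R)]
    · rw [Int.toNat_of_nonpos h]
      push_cast
      linarith
  calc ({t : ℤ | t ∈ S B C κ y ∧ (t : ℝ) ≤ X}.ncard : ℝ) ≤ (((⌊y + R⌋ + 1 - ⌈y - R⌉).toNat : ℕ) : ℝ) := by
        exact_mod_cast h1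
    _ ≤ 2 * R + 1 := h2
    _ ≤ (2 * C * (2 + B) + 1) * X ^ κ := by
        rw [hR]
        nlinarith

/-- **Uniform small intervals.** -/
theorem near_few (fs : List (ℕ → ℕ)) (hfs : ∀ f ∈ fs, PD f) {G : ℕ → ℝ} {d : ℝ} (hG : Expanding G d) {κ : ℝ}
    (hκ : 0 ≤ κ) (h1 : d * κ < 1) (C : ℝ) :
    ∃ c K : ℝ, 0 < c ∧ 0 ≤ K ∧ ∀ (y : ℝ) (N : ℕ), 1 ≤ N →
      (((Icc 1 N).filter (fun m => |G (comp fs m) - y| ≤ C * (1 + |G (comp fs m)|) ^ κ)).card : ℝ) ≤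
        K * N * Real.exp (-(c * Real.log N ^ ((1 : ℝ) / (fs.length + 1)))) := by
  obtain ⟨B, hB, hlow⟩ := lower hG
  have hκ1 : κ ≤ 1 := by
    have := hG.one_le
    by_contra h
    push Not at h
    nlinarith
  obtain ⟨c, K, hc, hK⟩ := windows_unif (T := ℤ) (fun t => (t : ℝ)) fs hfs hG (s := κ) (κ := 0) hκ le_rfl
    (by linarith) (2 * (1 + 2 * |C|) * (2 + (B + 1)) + 1)
  refine ⟨c, |K|, hc, abs_nonneg _, fun y N hN => ?_⟩
  have h2 := hK (S (B + 1) (1 + 2 * |C|) κ y) (fun X hX => count_S (by linarith) (by positivity) hκ hκ1 y X hX) N hN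
  have h3 : (((Icc 1 N).filter (fun m => |G (comp fs m) - y| ≤ C * (1 + |G (comp fs m)|) ^ κ) : Finset ℕ) : Set ℕ) ⊆
      {m : ℕ | 1 ≤ m ∧ m ≤ N ∧ ∃ t ∈ S (B + 1) (1 + 2 * |C|) κ y, |(fun t : ℤ => (t : ℝ)) t - G (comp fs m)| ≤
        (comp fs m : ℝ) ^ (0 : ℝ)} := by
    intro m hm
    rw [mem_coe, mem_filter, mem_Icc] at hm
    obtain ⟨⟨hm1, hm2⟩, hm3⟩ := hm
    refine ⟨hm1, hm2, ⌊G (comp fs m)⌋, ⟨?_, ?_⟩, ?_⟩
    · have := Int.lt_floor_add_one (G (comp fs m))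
      linarith [hlow (comp fs m)]
    · have h4 := Int.lt_floor_add_one (G (comp fs m))
      have h5 := Int.floor_le (G (comp fs m))
      have h6 : |G (comp fs m)| ≤ |(⌊G (comp fs m)⌋ : ℝ)| + 1 := by
        have h7 : G (comp fs m) = (⌊G (comp fs m)⌋ : ℝ) + (G (comp fs m) - ⌊G (comp fs m)⌋) := by ring
        calc |G (comp fs m)| = |(⌊G (comp fs m)⌋ : ℝ) + (G (comp fs m) - ⌊G (comp fs m)⌋)| := by rw [← h7]
          _ ≤ |(⌊G (comp fs m)⌋ : ℝ)| + |G (comp fs m) - ⌊G (comp fs m)⌋| := abs_add_le _ _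
          _ ≤ _ := by
            rw [abs_of_nonneg (by linarith : 0 ≤ G (comp fs m) - ⌊G (comp fs m)⌋)]
            linarith
      have h7 : (1 + |G (comp fs m)|) ^ κ ≤ 2 * (1 + |(⌊G (comp fs m)⌋ : ℝ)|) ^ κ := by
        calc (1 + |G (comp fs m)|) ^ κ ≤ (2 * (1 + |(⌊G (comp fs m)⌋ : ℝ)|)) ^ κ := by
              apply Real.rpow_le_rpow (by positivity) _ hκ
              linarith [abs_nonneg (⌊G (comp fs m)⌋ : ℝ)]
          _ = 2 ^ κ * (1 + |(⌊G (comp fs m)⌋ : ℝ)|) ^ κ := Real.mul_rpow (by norm_num) (by positivity)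
          _ ≤ 2 * (1 + |(⌊G (comp fs m)⌋ : ℝ)|) ^ κ := by
              apply mul_le_mul_of_nonneg_right _ (by positivity)
              calc (2 : ℝ) ^ κ ≤ 2 ^ (1 : ℝ) := Real.rpow_le_rpow_of_exponent_le (by norm_num) hκ1
                _ = 2 := Real.rpow_one _
      have h8 : (1 : ℝ) ≤ (1 + |(⌊G (comp fs m)⌋ : ℝ)|) ^ κ := Real.one_le_rpow (by linarith [abs_nonneg (⌊G (comp fs m)⌋ : ℝ)]) hκ
      have h9 : C * (1 + |G (comp fs m)|) ^ κ ≤ |C| * (2 * (1 + |(⌊G (comp fs m)⌋ : ℝ)|) ^ κ) :=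
        (mul_le_mul_of_nonneg_right (le_abs_self C) (by positivity)).trans (mul_le_mul_of_nonneg_left h7 (abs_nonneg C))
      calc |(⌊G (comp fs m)⌋ : ℝ) - y| = |((⌊G (comp fs m)⌋ : ℝ) - G (comp fs m)) + (G (comp fs m) - y)| := by
            congr 1; ring
        _ ≤ |(⌊G (comp fs m)⌋ : ℝ) - G (comp fs m)| + |G (comp fs m) - y| := abs_add_le _ _
        _ ≤ 1 + C * (1 + |G (comp fs m)|) ^ κ := by
            apply add_le_add _ hm3
            rw [abs_le]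
            constructor <;> linarith
        _ ≤ (1 + 2 * |C|) * (1 + |(⌊G (comp fs m)⌋ : ℝ)|) ^ κ := by nlinarith
    · rw [Real.rpow_zero, abs_le]
      have h4 := Int.lt_floor_add_one (G (comp fs m))
      have h5 := Int.floor_le (G (comp fs m))
      constructor
      · show -1 ≤ (⌊G (comp fs m)⌋ : ℝ) - G (comp fs m)
        linarith
      · show (⌊G (comp fs m)⌋ : ℝ) - G (comp fs m) ≤ 1
        linarith
  have hfin : {m : ℕ | 1 ≤ m ∧ m ≤ N ∧ ∃ t ∈ S (B + 1) (1 + 2 * |C|) κ y, |(fun t : ℤ => (t : ℝ)) t - G (comp fs m)| ≤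
        (comp fs m : ℝ) ^ (0 : ℝ)}.Finite := by
    apply (Set.finite_Icc 1 N).subset
    rintro m ⟨hm1, hm2, _⟩
    exact ⟨hm1, hm2⟩
  have h4 := Set.ncard_le_ncard h3 hfin
  rw [Set.ncard_coe_finset] at h4
  refine (Nat.cast_le.2 h4).trans (h2.trans ?_)
  have h5 : K * N ≤ |K| * N := mul_le_mul_of_nonneg_right (le_abs_self K) (Nat.cast_nonneg N)
  exact mul_le_mul_of_nonneg_right h5 (Real.exp_pos _).le

end Pool.Agent.V7H87.KT
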