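import Pool.Agent.V7H87.KT.A

/-! Linear relations between the values of compositions of functions dominated by the largest prime factor (helper87). -/

set_option autoImplicit false

namespace Pool.Agent.V7H87.KT

open Finset
open Pool.Agent.N733.TG (Expanding)
open Pool.Agent.N375.AV (PD comp windows_unif)

/-- slices of a finite set of tuples -/
lemma slices {k : ℕ} (N : Fin k → ℕ) (e₀ : Fin k) (P : (Fin k → ℕ) → Prop) [DecidablePred P] (L : ℝ)
    (hL : 0 ≤ L)
    (h : ∀ m : Fin k → ℕ, (((Icc 1 (N e₀)).filter (fun j => P (Function.update m e₀ j))).card : ℝ) ≤ L * N e₀) :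
    (((Fintype.piFinset fun e => Icc 1 (N e)).filter P).card : ℝ) ≤ L * ∏ e, (N e : ℝ) := by
  classical
  obtain ⟨A, hA⟩ : ∃ A : Finset (Fin k → ℕ), A = Fintype.piFinset fun e => if e = e₀ then {1} else Icc 1 (N e) := ⟨_, rfl⟩
  have hcardA : (N e₀ : ℝ) * (A.card : ℝ) = ∏ e, (N e : ℝ) := by
    rw [hA, Fintype.card_piFinset, ← Finset.mul_prod_erase _ _ (mem_univ e₀), ← Finset.mul_prod_erase _ (fun e => (N e : ℝ)) (mem_univ e₀)]
    rw [if_pos rfl, card_singleton, one_mul]
    push_cast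
    congr 1
    apply prod_congr rfl
    intro e he
    rw [if_neg (ne_of_mem_erase he), Nat.card_Icc, Nat.add_sub_cancel]
  have h1 : ((Fintype.piFinset fun e => Icc 1 (N e)).filter P).card ≤ ⌊L * N e₀⌋₊ * A.card := by
    apply card_le_mul_card_image_of_maps_to (f := fun m => Function.update m e₀ 1)
    · intro m hm
      rw [mem_filter, Fintype.mem_piFinset] at hm
      rw [hA, Fintype.mem_piFinset]
      intro e
      by_cases he : e = e₀
      · subst he
        rw [if_pos rfl, Function.update_self, mem_singleton]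
      · rw [if_neg he, Function.update_of_ne he]
        exact hm.1 e
    · intro m' _
      apply Nat.le_floor
      refine le_trans ?_ (h m')
      apply Nat.cast_le.2
      apply card_le_card_of_injOn (fun m => m e₀)
      · intro m hm
        rw [mem_coe, mem_filter, mem_filter, Fintype.mem_piFinset] at hm
        rw [mem_coe, mem_filter]
        refine ⟨hm.1.1 e₀, ?_⟩
        have h2 : Function.update m' e₀ (m e₀) = m := by
          rw [← hm.2]
          funext e
          by_cases he : e = e₀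
          · subst he
            rw [Function.update_self]
          · rw [Function.update_of_ne he, Function.update_of_ne he]
        show P (Function.update m' e₀ (m e₀))
        rw [h2]
        exact hm.1.2
      · intro m hm m₂ hm₂ hmm
        rw [mem_coe, mem_filter] at hm hm₂
        funext e
        by_cases he : e = e₀
        · subst he
          exact hmm
        · have h2 := congrFun (hm.2.trans hm₂.2.symm) e
          simpa [Function.update_of_ne he] using h2
  calc (((Fintype.piFinset fun e => Icc 1 (N e)).filter P).card : ℝ) ≤ ((⌊L * N e₀⌋₊ * A.card : ℕ) : ℝ) := by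
        exact_mod_cast h1
    _ = (⌊L * N e₀⌋₊ : ℝ) * A.card := by push_cast; rfl
    _ ≤ (L * N e₀) * A.card := by
        apply mul_le_mul_of_nonneg_right _ (Nat.cast_nonneg _)
        exact Nat.floor_le (by positivity)
    _ = L * ∏ e, (N e : ℝ) := by rw [mul_assoc, hcardA]

lemma exp_compare {c : ℝ} (hc : 0 < c) {l D M N : ℕ} (hl : l ≤ D) (hM : 1 ≤ M) (hMN : M ≤ N) :
    Real.exp (-(c * Real.log N ^ ((1 : ℝ) / (l + 1)))) ≤
      Real.exp c * Real.exp (-(c * Real.log M ^ ((1 : ℝ) / (D + 1)))) := by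
  rw [← Real.exp_add]
  apply Real.exp_le_exp.2
  have hM0 : (0 : ℝ) < M := by exact_mod_cast hM
  have hlM : 0 ≤ Real.log M := Real.log_nonneg (by exact_mod_cast hM)
  have hlMN : Real.log M ≤ Real.log N := Real.log_le_log hM0 (by exact_mod_cast hMN)
  have h1 : Real.log M ^ ((1 : ℝ) / (D + 1)) ≤ 1 + Real.log N ^ ((1 : ℝ) / (l + 1)) := by
    rcases le_total (Real.log M) 1 with h | h
    · have h2 : Real.log M ^ ((1 : ℝ) / (D + 1)) ≤ 1 := Real.rpow_le_one hlM h (by positivity)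
      have h3 : 0 ≤ Real.log N ^ ((1 : ℝ) / (l + 1)) := Real.rpow_nonneg (hlM.trans hlMN) _
      linarith
    · have h2 : Real.log M ^ ((1 : ℝ) / (D + 1)) ≤ Real.log M ^ ((1 : ℝ) / (l + 1)) := by
        apply Real.rpow_le_rpow_of_exponent_le h
        apply one_div_le_one_div_of_le (by positivity)
        have : (l : ℝ) ≤ D := by exact_mod_cast hl
        linarith
      have h3 : Real.log M ^ ((1 : ℝ) / (l + 1)) ≤ Real.log N ^ ((1 : ℝ) / (l + 1)) :=
        Real.rpow_le_rpow hlM hlMN (by positivity)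
      linarith
  nlinarith

/-- **Linear relations.** For tuples of compositions of functions dominated by the largest prime factor. -/
theorem relations {k : ℕ} (D : ℕ) (fs : Fin k → List (ℕ → ℕ)) (hfs : ∀ e, ∀ f ∈ fs e, PD f)
    (hD : ∀ e, (fs e).length ≤ D) (G : Fin k → ℕ → ℝ) (d : Fin k → ℝ) (hG : ∀ e, Expanding (G e) (d e)) {κ : ℝ}
    (hκ : 0 ≤ κ) (h1 : ∀ e, d e * κ < 1) (U : Finset (Fin k → ℝ)) (C : ℝ) :
    ∃ c K : ℝ, 0 < c ∧ 0 ≤ K ∧ ∀ (M : ℕ) (N : Fin k → ℕ), 1 ≤ M → (∀ e, M ≤ N e) →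
      ({m : Fin k → ℕ | (∀ e, 1 ≤ m e ∧ m e ≤ N e) ∧ ∃ u ∈ U, ∃ e₀, u e₀ ≠ 0 ∧
        |∑ e, u e * G e (comp (fs e) (m e))| ≤ C * (1 + |G e₀ (comp (fs e₀) (m e₀))|) ^ κ}.ncard : ℝ) ≤
        K * (∏ e, (N e : ℝ)) * Real.exp (-(c * Real.log M ^ ((1 : ℝ) / (D + 1)))) := by
  classical
  have hone : ∀ p : (Fin k → ℝ) × Fin k, ∃ c K : ℝ, 0 < c ∧ 0 ≤ K ∧ ∀ (y : ℝ) (N : ℕ), 1 ≤ N →
      (((Icc 1 N).filter (fun m => |G p.2 (comp (fs p.2) m) - y| ≤ C / |p.1 p.2| * (1 + |G p.2 (comp (fs p.2) m)|) ^ κ)).card : ℝ) ≤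
        K * N * Real.exp (-(c * Real.log N ^ ((1 : ℝ) / ((fs p.2).length + 1)))) := fun p =>
    near_few (fs p.2) (hfs p.2) (hG p.2) hκ (h1 p.2) (C / |p.1 p.2|)
  choose c K hc hK hone using hone
  obtain ⟨I, hI⟩ : ∃ I : Finset ((Fin k → ℝ) × Fin k), I = U ×ˢ univ := ⟨_, rfl⟩
  obtain ⟨w, hw⟩ : ∃ w : ℝ, w = ∑ p ∈ I, 1 / c p + 1 := ⟨_, rfl⟩
  have hsum0 : 0 ≤ ∑ p ∈ I, 1 / c p := sum_nonneg fun p _ => (one_div_pos.2 (hc p)).le
  have hw1 : 1 ≤ w := by rw [hw]; linarith
  have hcw : ∀ p ∈ I, 1 / w ≤ c p := by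
    intro p hp
    have h2 : 1 / c p ≤ ∑ p ∈ I, 1 / c p := single_le_sum (f := fun p => 1 / c p) (fun p _ => (one_div_pos.2 (hc p)).le) hp
    rw [div_le_iff₀ (by linarith)]
    have h3 : c p * (1 / c p) = 1 := mul_one_div_cancel (hc p).ne'
    have h4 := hc p
    nlinarith
  refine ⟨1 / w, ∑ p ∈ I, K p * Real.exp (1 / w), by positivity,
    sum_nonneg fun p _ => mul_nonneg (hK p) (Real.exp_pos _).le, fun M N hM hMN => ?_⟩
  have hN : ∀ e, 1 ≤ N e := fun e => hM.trans (hMN e)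
  obtain ⟨Q, hQ⟩ : ∃ Q : (Fin k → ℝ) × Fin k → (Fin k → ℕ) → Prop, Q = fun p m => p.1 p.2 ≠ 0 ∧
      |∑ e, p.1 e * G e (comp (fs e) (m e))| ≤ C * (1 + |G p.2 (comp (fs p.2) (m p.2))|) ^ κ := ⟨_, rfl⟩
  have hpiece : ∀ p ∈ I, (((Fintype.piFinset fun e => Icc 1 (N e)).filter (Q p)).card : ℝ) ≤
      (K p * (Real.exp (1 / w) * Real.exp (-(1 / w * Real.log M ^ ((1 : ℝ) / (D + 1)))))) * ∏ e, (N e : ℝ) := by
    intro p hp
    apply slices N p.2 (Q p) _ (mul_nonneg (hK p) (by positivity))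
    intro m
    by_cases hu : p.1 p.2 = 0
    · have h2 : (Icc 1 (N p.2)).filter (fun j => Q p (Function.update m p.2 j)) = ∅ := by
        apply filter_eq_empty_iff.2
        intro j _ hj
        rw [hQ] at hj
        exact hj.1 hu
      rw [h2, card_empty]
      have := hK p
      push_cast
      positivity
    · obtain ⟨y, hy⟩ : ∃ y : ℝ, y = -(∑ e ∈ univ.erase p.2, p.1 e * G e (comp (fs e) (m e))) / p.1 p.2 := ⟨_, rfl⟩
      have h2 : (Icc 1 (N p.2)).filter (fun j => Q p (Function.update m p.2 j)) ⊆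
          (Icc 1 (N p.2)).filter (fun j => |G p.2 (comp (fs p.2) j) - y| ≤ C / |p.1 p.2| * (1 + |G p.2 (comp (fs p.2) j)|) ^ κ) := by
        intro j hj
        rw [mem_filter] at hj ⊢
        refine ⟨hj.1, ?_⟩
        have h3 := hj.2
        rw [hQ] at h3
        obtain ⟨_, h4⟩ := h3
        rw [Function.update_self, ← add_sum_erase _ _ (mem_univ p.2), Function.update_self] at h4
        have h5 : ∑ e ∈ univ.erase p.2, p.1 e * G e (comp (fs e) (Function.update m p.2 j e)) =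
            ∑ e ∈ univ.erase p.2, p.1 e * G e (comp (fs e) (m e)) := by
          apply sum_congr rfl
          intro e he
          rw [Function.update_of_ne (ne_of_mem_erase he)]
        rw [h5] at h4
        have h6 : p.1 p.2 * G p.2 (comp (fs p.2) j) + ∑ e ∈ univ.erase p.2, p.1 e * G e (comp (fs e) (m e)) =
            p.1 p.2 * (G p.2 (comp (fs p.2) j) - y) := by
          rw [hy]
          field_simp
          ring
        rw [h6, abs_mul] at h4
        have hpos : 0 < |p.1 p.2| := abs_pos.2 hu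
        rw [div_mul_eq_mul_div, le_div_iff₀ hpos, mul_comm]
        exact h4
      refine (Nat.cast_le.2 (card_le_card h2)).trans ((hone p y (N p.2) (hN p.2)).trans ?_)
      have h3 : Real.exp (-(c p * Real.log (N p.2) ^ ((1 : ℝ) / ((fs p.2).length + 1)))) ≤
          Real.exp (-(1 / w * Real.log (N p.2) ^ ((1 : ℝ) / ((fs p.2).length + 1)))) := by
        apply Real.exp_le_exp.2
        have h4 : 0 ≤ Real.log (N p.2) ^ ((1 : ℝ) / ((fs p.2).length + 1)) :=
          Real.rpow_nonneg (Real.log_nonneg (by exact_mod_cast hN p.2)) _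
        have h5 := mul_le_mul_of_nonneg_right (hcw p hp) h4
        linarith
      have h4 := h3.trans (exp_compare (c := 1 / w) (by positivity) (hD p.2) hM (hMN p.2))
      have h5 := mul_le_mul_of_nonneg_left h4 (mul_nonneg (hK p) (Nat.cast_nonneg (N p.2)))
      refine h5.trans (le_of_eq ?_)
      ring
  have hsub : {m : Fin k → ℕ | (∀ e, 1 ≤ m e ∧ m e ≤ N e) ∧ ∃ u ∈ U, ∃ e₀, u e₀ ≠ 0 ∧
      |∑ e, u e * G e (comp (fs e) (m e))| ≤ C * (1 + |G e₀ (comp (fs e₀) (m e₀))|) ^ κ} ⊆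
      ((I.biUnion fun p => (Fintype.piFinset fun e => Icc 1 (N e)).filter (Q p) : Finset (Fin k → ℕ)) :
        Set (Fin k → ℕ)) := by
    rintro m ⟨h2, u, hu, e₀, h3, h4⟩
    rw [mem_coe, mem_biUnion]
    refine ⟨(u, e₀), ?_, ?_⟩
    · rw [hI]
      exact mem_product.2 ⟨hu, mem_univ _⟩
    · rw [mem_filter, Fintype.mem_piFinset]
      refine ⟨fun e => mem_Icc.2 (h2 e), ?_⟩
      rw [hQ]
      exact ⟨h3, h4⟩
  have h2 := Set.ncard_le_ncard hsub (finite_toSet _)
  rw [Set.ncard_coe_finset] at h2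
  calc _ ≤ ((I.biUnion fun p => (Fintype.piFinset fun e => Icc 1 (N e)).filter (Q p)).card : ℝ) := Nat.cast_le.2 h2
    _ ≤ ((∑ p ∈ I, ((Fintype.piFinset fun e => Icc 1 (N e)).filter (Q p)).card : ℕ) : ℝ) := Nat.cast_le.2 card_biUnion_le
    _ = ∑ p ∈ I, (((Fintype.piFinset fun e => Icc 1 (N e)).filter (Q p)).card : ℝ) := by push_cast; rfl
    _ ≤ ∑ p ∈ I, (K p * (Real.exp (1 / w) * Real.exp (-(1 / w * Real.log M ^ ((1 : ℝ) / (D + 1)))))) * ∏ e, (N e : ℝ) :=
        sum_le_sum hpiece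
    _ = _ := by
        rw [sum_mul, sum_mul]
        apply sum_congr rfl
        intro p _
        ring

end Pool.Agent.V7H87.KT
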